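import Pool.Agent.H570R2.Modp.Stubs2
import Mathlib.NumberTheory.Chebyshev
import Mathlib.FieldTheory.Finite.Basic

/-!
# Task CR: primes, Chinese remaindering, a bound on the number of satisfying assignments
-/

namespace Pool.Agent.H994R2.CR570

open Pool.Agent.NPC.Cnt Pool.Agent.H549R2.PM Pool.Agent.H570R2.Mono

theorem isPr_iff (n : ℕ) : isPr n = true ↔ n.Prime := by
  rw [isPr, Nat.prime_def_lt']
  simp only [Bool.and_eq_true, decide_eq_true_eq, List.all_eq_true, List.mem_range,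
    Bool.or_eq_true, Bool.not_eq_true', decide_eq_false_iff_not]
  constructor
  · rintro ⟨h1, h2⟩
    refine ⟨h1, fun m hm hmn hd => ?_⟩
    rcases h2 m hmn with h | h
    · omega
    · exact h (Nat.mod_eq_zero_of_dvd hd)
  · rintro ⟨h1, h2⟩
    refine ⟨h1, fun m hmn => ?_⟩
    by_cases hm : m < 2
    · exact Or.inl hm
    · right
      intro h
      exact h2 m (by omega) hmn (Nat.dvd_of_mod_eq_zero h)

theorem mem_oddPr (B p : ℕ) : p ∈ oddPr B ↔ p.Prime ∧ p ≠ 2 ∧ p ≤ B := by
  rw [oddPr]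
  simp only [List.mem_filter, List.mem_range, Bool.and_eq_true, isPr_iff, Bool.not_eq_true',
    decide_eq_false_iff_not]
  constructor
  · rintro ⟨h1, h2, h3⟩
    exact ⟨h2, h3, by omega⟩
  · rintro ⟨h1, h2, h3⟩
    exact ⟨by omega, h1, h2⟩

theorem nodup_oddPr (B : ℕ) : (oddPr B).Nodup := by
  rw [oddPr]
  exact List.Nodup.filter _ List.nodup_range

theorem zip_map_aux {α β γ : Type} (f : α → β) (g : α × β → γ) (l : List α) :
    (l.zip (l.map f)).map g = l.map (fun p => g (p, f p)) := by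
  induction l with
  | nil => rfl
  | cons a l ih => simp [ih]

theorem crt_aux (s : Finset ℕ) (hp : ∀ p ∈ s, p.Prime) (x q : ℕ) (hq : q ∈ s) :
    (∑ p ∈ s, (x % p) * (((∏ r ∈ s, r) / p) *
      ((((∏ r ∈ s, r) / p) % p) ^ (p - 2) % p))) ≡ x [MOD q] := by
  have hdiv : ∀ p ∈ s, (∏ r ∈ s, r) / p = ∏ r ∈ s.erase p, r := by
    intro p hps
    rw [← Finset.mul_prod_erase s (fun r => r) hps]
    exact Nat.mul_div_cancel_left _ (hp p hps).pos
  rw [← Finset.add_sum_erase s _ hq]
  have h1 : (∑ p ∈ s.erase q, (x % p) * (((∏ r ∈ s, r) / p) *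
      ((((∏ r ∈ s, r) / p) % p) ^ (p - 2) % p))) ≡ 0 [MOD q] := by
    rw [Nat.modEq_zero_iff_dvd]
    refine Finset.dvd_sum fun p hps => ?_
    have hps' := Finset.mem_erase.1 hps
    refine Dvd.dvd.mul_left (Dvd.dvd.mul_right ?_ _) _
    rw [hdiv p hps'.2]
    exact Finset.dvd_prod_of_mem (fun r => r) (Finset.mem_erase.2 ⟨Ne.symm hps'.1, hq⟩)
  have h2 : (x % q) * (((∏ r ∈ s, r) / q) *
      ((((∏ r ∈ s, r) / q) % q) ^ (q - 2) % q)) ≡ x [MOD q] := by
    have hqp := hp q hq
    set N := (∏ r ∈ s, r) / q with hN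
    have hcop : Nat.Coprime N q := by
      rw [hdiv q hq] at hN
      rw [hN]
      refine Nat.Coprime.prod_left fun r hr => ?_
      have hr' := Finset.mem_erase.1 hr
      exact (Nat.coprime_primes (hp r hr'.2) hqp).2 hr'.1
    have h3 : N * ((N % q) ^ (q - 2) % q) ≡ N ^ (q - 1) [MOD q] := by
      have e : N ^ (q - 1) = N * N ^ (q - 2) := by
        have : q - 1 = (q - 2) + 1 := by have := hqp.two_le; omega
        rw [this, pow_succ']
      rw [e]
      refine Nat.ModEq.mul_left _ ?_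
      exact (Nat.mod_modEq _ _).trans ((Nat.mod_modEq _ _).pow _)
    have h4 : N ^ (q - 1) ≡ 1 [MOD q] := by
      have := Nat.ModEq.pow_totient hcop
      rwa [Nat.totient_prime hqp] at this
    calc (x % q) * (N * ((N % q) ^ (q - 2) % q)) ≡ x * 1 [MOD q] :=
          (Nat.mod_modEq _ _).mul (h3.trans h4)
      _ = x := mul_one x
  have := h2.add h1
  rwa [add_zero] at this

theorem crtL_eq (ps : List ℕ) (hn : ps.Nodup) (hp : ∀ p ∈ ps, p.Prime) (x : ℕ)
    (hx : x < ps.prod) : crtL ps (ps.map (fun p => x % p)) = x := by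
  rw [crtL, zip_map_aux]
  have hprod : ps.prod = ∏ r ∈ ps.toFinset, r := by
    have := List.prod_toFinset (fun r : ℕ => r) hn
    rw [this]; simp
  have hsum := List.sum_toFinset (fun p : ℕ => (x % p) * ((ps.prod / p) *
    (((ps.prod / p) % p) ^ (p - 2) % p))) hn
  show (ps.map (fun p : ℕ => (x % p) * ((ps.prod / p) *
    (((ps.prod / p) % p) ^ (p - 2) % p)))).sum % ps.prod = x
  rw [← hsum]
  have hmod : (∑ p ∈ ps.toFinset, (x % p) * ((ps.prod / p) *
    (((ps.prod / p) % p) ^ (p - 2) % p))) ≡ x [MOD ps.prod] := by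
    have hco : ps.Pairwise Nat.Coprime := by
      rw [List.pairwise_iff_getElem]
      intro i j hi hj hij
      refine (Nat.coprime_primes (hp _ (List.getElem_mem hi)) (hp _ (List.getElem_mem hj))).2 ?_
      intro h
      have := (hn.getElem_inj_iff).1 h
      omega
    rw [Nat.modEq_list_prod_iff hco]
    intro i
    rw [hprod]
    refine crt_aux ps.toFinset (fun p h => hp p (List.mem_toFinset.1 h)) x _ ?_
    exact List.mem_toFinset.2 (List.get_mem ps i)
  rw [Nat.ModEq, Nat.mod_eq_of_lt hx] at hmod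
  exact hmod

theorem sq_lt (m : ℕ) (hm : 5 ≤ m) : m * m + 1 ≤ 2 ^ m := by
  induction m, hm using Nat.le_induction with
  | base => norm_num
  | succ n hn ih =>
    rw [pow_succ]
    nlinarith

theorem card_primesLE (L : ℕ) : L + 2 ≤ (Nat.primesLE ((L + 5) * (L + 5))).card := by
  by_contra hcon
  push Not at hcon
  set m := L + 5 with hm
  set B := m * m with hB
  have h1 := Chebyshev.two_pow_le_mul_lcmUpto B
  have hB1 : B ≠ 0 := by positivity
  have h2 : Nat.lcmUpto B ≤ B ^ (Nat.primesLE B).card := by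
    rw [Nat.lcmUpto_eq_prod_pow_log]
    refine (Finset.prod_le_prod (fun _ _ => Nat.zero_le _) (g := fun _ => B) ?_).trans ?_
    · intro p _
      exact Nat.pow_log_le_self p hB1
    · simp
  have h3 : B ^ (Nat.primesLE B).card ≤ (B + 1) ^ (L + 1) := by
    calc B ^ (Nat.primesLE B).card ≤ (B + 1) ^ (Nat.primesLE B).card :=
          Nat.pow_le_pow_left (by omega) _
      _ ≤ (B + 1) ^ (L + 1) := Nat.pow_le_pow_right (by omega) (by omega)
  have h4 : 2 ^ B ≤ (B + 1) ^ (L + 2) := by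
    calc 2 ^ B ≤ (B + 1) * Nat.lcmUpto B := h1
      _ ≤ (B + 1) * (B + 1) ^ (L + 1) := Nat.mul_le_mul_left _ (h2.trans h3)
      _ = (B + 1) ^ (L + 2) := by rw [pow_succ (B + 1) (L + 1)]; ring
  have h5 : (B + 1) ^ (L + 2) ≤ (2 ^ m) ^ (L + 2) :=
    Nat.pow_le_pow_left (sq_lt m (by omega)) _
  rw [← pow_mul] at h5
  have h6 : m * (L + 2) < B := by
    rw [hB]
    exact Nat.mul_lt_mul_of_pos_left (by omega) (by omega)
  have h7 : 2 ^ (m * (L + 2)) < 2 ^ B := Nat.pow_lt_pow_right (by norm_num) h6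
  omega

theorem prod_oddPr (L : ℕ) : 2 ^ L < (oddPr ((L + 5) * (L + 5))).prod := by
  set B := (L + 5) * (L + 5) with hB
  have hn := nodup_oddPr B
  have hprod : (oddPr B).prod = ∏ r ∈ (oddPr B).toFinset, r := by
    have := List.prod_toFinset (fun r : ℕ => r) hn
    rw [this]; simp
  have hset : (Nat.primesLE B).erase 2 ⊆ (oddPr B).toFinset := by
    intro p hp
    rw [Finset.mem_erase] at hp
    rw [List.mem_toFinset, mem_oddPr]
    exact ⟨Nat.prime_of_mem_primesLE hp.2, hp.1, Nat.le_of_mem_primesLE hp.2⟩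
  have hc : L + 1 ≤ (oddPr B).toFinset.card := by
    have h1 := Finset.card_le_card hset
    have h2 := Finset.pred_card_le_card_erase (s := Nat.primesLE B) (a := 2)
    have h3 : L + 2 ≤ (Nat.primesLE B).card := card_primesLE L
    omega
  rw [hprod]
  have h3 : 3 ^ (oddPr B).toFinset.card ≤ ∏ r ∈ (oddPr B).toFinset, r := by
    refine Finset.pow_card_le_prod _ _ _ ?_
    intro p hp
    rw [List.mem_toFinset, mem_oddPr] at hp
    have := hp.1.two_le
    have := hp.2.1
    omega
  calc 2 ^ L < 2 ^ (L + 1) := Nat.pow_lt_pow_right (by norm_num) (by omega)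
    _ ≤ 3 ^ (L + 1) := Nat.pow_le_pow_left (by norm_num) _
    _ ≤ 3 ^ (oddPr B).toFinset.card := Nat.pow_le_pow_right (by norm_num) hc
    _ ≤ _ := h3

theorem satCount_le (φ : CNF ℕ) : satCount φ ≤ 2 ^ nL φ := by
  rw [satCount]
  refine (Finset.card_filter_le _ _).trans ?_
  rw [Finset.card_powerset]
  refine Nat.pow_le_pow_right (by norm_num) ?_
  rw [vars, nL]
  refine (List.toFinset_card_le _).trans ?_
  rw [List.length_map]

/-- Task CR. -/
theorem stub_crt : StubCrt := by
  refine ⟨mem_oddPr, ?_, satCount_le⟩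
  intro L x hx
  exact crtL_eq _ (nodup_oddPr _) (fun p hp => ((mem_oddPr _ _).1 hp).1) x
    (lt_of_le_of_lt hx (prod_oddPr L))

end Pool.Agent.H994R2.CR570
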