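import Pool.Agent.H994R2.CubeSub

/-! Asymptotics. -/

open scoped Classical
open Filter Topology

namespace H994Cube

/-- basic bounds on `L = -log(1-p)` and `mp p` -/
lemma basic {p : ℝ} (h0 : 0 < p) (h1 : p ≤ 1 / 50) :
    p ≤ -Real.log (1 - p) ∧ -Real.log (1 - p) ≤ 50 / 49 * p ∧
    (mp p : ℝ) * (-Real.log (1 - p)) ≤ Real.log 2 ∧ (6 / 10) / p ≤ (mp p : ℝ) ∧
    (mp p : ℝ) ≤ 1 / p := by
  set L := -Real.log (1 - p) with hL
  have hq : 0 < 1 - p := by linarith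
  have hL1 : p ≤ L := by
    have := Real.log_le_sub_one_of_pos hq
    rw [hL]; linarith
  have hL2 : L ≤ 50 / 49 * p := by
    have h2 := Real.one_sub_inv_le_log_of_pos hq
    have h3 : (1 - p)⁻¹ - 1 ≤ 50 / 49 * p := by
      rw [inv_eq_one_div, div_sub_one (ne_of_gt hq), div_le_iff₀ hq]
      nlinarith
    rw [hL]; linarith
  have hLpos : 0 < L := by linarith
  have hx : -1 / Real.logb 2 (1 - p) = Real.log 2 / L := by
    unfold Real.logb
    have : Real.log (1 - p) = -L := by rw [hL]; ring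
    rw [this]
    have h2 : Real.log 2 ≠ 0 := by
      have := Real.log_pos (show (1 : ℝ) < 2 by norm_num)
      exact ne_of_gt this
    field_simp
  have hlog2 := Real.log_two_gt_d9
  have hlog2' := Real.log_two_lt_d9
  have hx0 : 0 ≤ Real.log 2 / L := by positivity
  have hmp : mp p = ⌊Real.log 2 / L⌋₊ := by unfold mp; rw [hx]
  have hfl := Nat.floor_le hx0
  have hlt := Nat.lt_floor_add_one (Real.log 2 / L)
  rw [← hmp] at hfl hlt
  refine ⟨hL1, hL2, ?_, ?_, ?_⟩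
  · calc (mp p : ℝ) * L ≤ Real.log 2 / L * L := mul_le_mul_of_nonneg_right hfl hLpos.le
      _ = Real.log 2 := by field_simp
  · have h4 : Real.log 2 / (50 / 49 * p) ≤ Real.log 2 / L :=
      div_le_div_of_nonneg_left (by linarith) hLpos hL2
    have h5 : (6 / 10) / p + 1 ≤ Real.log 2 / (50 / 49 * p) := by
      rw [div_add_one (ne_of_gt h0), div_le_div_iff₀ h0 (by positivity)]
      nlinarith
    linarith
  · refine hfl.trans ?_
    rw [div_le_div_iff₀ hLpos h0]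
    nlinarith

lemma card_T_ge {n k : ℕ} (h : 2 * k ≤ n) :
    (n : ℝ) ^ k * 2 ^ (n - 2 * k) ≤ ((T n k).card : ℝ) := by
  rw [card_T]
  have h1 := Nat.pow_sub_le_descFactorial n k
  have h2 : (n : ℝ) / 2 ≤ ((n + 1 - k : ℕ) : ℝ) := by
    rw [Nat.cast_sub (by omega)]
    push_cast
    have : (2 * k : ℝ) ≤ n := by exact_mod_cast h
    linarith
  have h3 : ((n : ℝ) / 2) ^ k ≤ ((n.descFactorial k : ℕ) : ℝ) := by
    calc ((n : ℝ) / 2) ^ k ≤ ((n + 1 - k : ℕ) : ℝ) ^ k := by gcongr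
      _ ≤ ((n.descFactorial k : ℕ) : ℝ) := by exact_mod_cast h1
  push_cast
  calc (n : ℝ) ^ k * 2 ^ (n - 2 * k) = ((n : ℝ) / 2) ^ k * 2 ^ (n - k) := by
        have : n - k = (n - 2 * k) + k := by omega
        rw [this, pow_add, div_pow]
        field_simp
    _ ≤ (n.descFactorial k : ℝ) * 2 ^ (n - k) := by gcongr

lemma pow_half {p : ℝ} (h0 : 0 < p) (h1 : p ≤ 1 / 50) : 1 / 2 ≤ (1 - p) ^ (mp p) := by
  obtain ⟨_, _, h3, _, _⟩ := basic h0 h1
  have hq : 0 < 1 - p := by linarith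
  have : (1 - p) ^ (mp p) = Real.exp (-((mp p : ℝ) * (-Real.log (1 - p)))) := by
    rw [show -((mp p : ℝ) * (-Real.log (1 - p))) = Real.log (1 - p) * (mp p : ℝ) by ring,
      Real.exp_mul, Real.exp_log hq, Real.rpow_natCast]
  rw [this]
  have h4 : (1 : ℝ) / 2 = Real.exp (-Real.log 2) := by
    rw [Real.exp_neg, Real.exp_log (by norm_num)]; norm_num
  rw [h4]
  exact Real.exp_le_exp.mpr (by linarith)

/-- lower bound of the mean -/
lemma mean_lower {n : ℕ} {p : ℝ} (h0 : 0 < p) (h1 : p ≤ 1 / 50) (hk : 2 * mp p ≤ n) :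
    Real.exp ((mp p : ℝ) * Real.log (n * p / 4) - n * (-Real.log (1 - p))) ≤ mean n (mp p) p := by
  have hq : 0 < 1 - p := by linarith
  set k := mp p with hkdef
  obtain ⟨_, _, _, hk6, _⟩ := basic h0 h1
  have hkpos : 0 < k := by
    have : (0 : ℝ) < (mp p : ℝ) := lt_of_lt_of_le (by positivity) hk6
    exact_mod_cast this
  have hn : 0 < n := by omega
  have hnp : (0 : ℝ) < n * p / 4 := by positivity
  have e1 := mean_ge (n := n) (k := k) h0.le (by linarith : p ≤ 1)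
  refine le_trans ?_ e1
  have e2 := card_T_ge hk
  have e3 : (1 / 2 : ℝ) ^ n ≤ (1 - p) ^ (k * n) := by
    rw [pow_mul]
    exact pow_le_pow_left₀ (by norm_num) (pow_half h0 h1) n
  have e4 : Real.exp ((k : ℝ) * Real.log (n * p / 4) - n * (-Real.log (1 - p)))
      = (n * p / 4) ^ k * (1 - p) ^ n := by
    rw [show (k : ℝ) * Real.log (n * p / 4) - n * (-Real.log (1 - p))
      = Real.log (n * p / 4) * k + Real.log (1 - p) * n by ring, Real.exp_add, Real.exp_mul,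
      Real.exp_mul, Real.exp_log hnp, Real.exp_log hq, Real.rpow_natCast, Real.rpow_natCast]
  rw [e4]
  calc ((n : ℝ) * p / 4) ^ k * (1 - p) ^ n
      = ((n : ℝ) ^ k * 2 ^ (n - 2 * k)) * (p ^ k * ((1 / 2 : ℝ) ^ n * (1 - p) ^ n)) := by
        have h2 : (2 : ℝ) ^ n = 2 ^ (n - 2 * k) * 4 ^ k := by
          have : n = (n - 2 * k) + 2 * k := by omega
          conv_lhs => rw [this, pow_add, pow_mul]
          norm_num
        have h3 : (1 / 2 : ℝ) ^ n = 1 / (2 ^ (n - 2 * k) * 4 ^ k) := by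
          rw [← h2, one_div_pow]
        rw [h3, div_pow, mul_pow]
        field_simp
    _ ≤ ((T n k).card : ℝ) * (p ^ k * ((1 - p) ^ (k * n) * (1 - p) ^ n)) := by
        gcongr
    _ = ((T n k).card : ℝ) * (p ^ k * (1 - p) ^ ((k + 1) * n)) := by
        rw [add_mul, one_mul, pow_add]

lemma delta_ok {n : ℕ} {p : ℝ} (h0 : 0 < p) (h1 : p ≤ 1 / 50) (hk : 16 * (mp p + 1) ≤ n) :
    ((mp p + 1 : ℕ) : ℝ) ^ 2 * (n : ℝ) ^ (mp p + 1) ≤
      ((n : ℝ) ^ 3 / (Real.sqrt 2) ^ n) * (T n (mp p)).card * (1 - p) ^ (2 * (mp p + 1) ^ 2) := by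
  set k := mp p with hkdef
  have hq : 0 < 1 - p := by linarith
  have e2 := card_T_ge (show 2 * k ≤ n by omega)
  have hhalf := pow_half h0 h1
  rw [← hkdef] at hhalf
  have e3 : (1 / 4 : ℝ) ≤ (1 - p) ^ (k + 1) := by
    rw [pow_succ]
    nlinarith
  have e4 : (1 / 4 : ℝ) ^ (2 * (k + 1)) ≤ (1 - p) ^ (2 * (k + 1) ^ 2) := by
    have : (1 - p) ^ (2 * (k + 1) ^ 2) = ((1 - p) ^ (k + 1)) ^ (2 * (k + 1)) := by
      rw [← pow_mul]; congr 1; ring
    rw [this]
    exact pow_le_pow_left₀ (by norm_num) e3 _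
  have hs2 : (1 : ℝ) ≤ Real.sqrt 2 := by
    rw [show (1 : ℝ) = Real.sqrt 1 by simp]
    exact Real.sqrt_le_sqrt (by norm_num)
  have hs0 : 0 < Real.sqrt 2 := by linarith
  have e5 : (Real.sqrt 2) ^ n ≤ 2 ^ (n - 6 * k - 4) := by
    have : (2 : ℝ) ^ (n - 6 * k - 4) = (Real.sqrt 2) ^ (2 * (n - 6 * k - 4)) := by
      rw [pow_mul, Real.sq_sqrt (by norm_num)]
    rw [this]
    exact pow_le_pow_right₀ hs2 (by omega)
  have hkn : ((k + 1 : ℕ) : ℝ) ≤ n := by exact_mod_cast (by omega : k + 1 ≤ n)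
  have e6 : (Real.sqrt 2) ^ n ≤ 2 ^ (n - 2 * k) * (1 / 4 : ℝ) ^ (2 * (k + 1)) := by
    refine e5.trans (le_of_eq ?_)
    have : n - 2 * k = (n - 6 * k - 4) + 2 * (2 * (k + 1)) := by omega
    rw [this, pow_add, pow_mul (2 : ℝ) 2]
    rw [mul_assoc, ← mul_pow]
    norm_num
  have e7 : (n : ℝ) ^ k * (Real.sqrt 2) ^ n
      ≤ ((T n k).card : ℝ) * (1 - p) ^ (2 * (k + 1) ^ 2) := by
    calc (n : ℝ) ^ k * (Real.sqrt 2) ^ n
        ≤ (n : ℝ) ^ k * (2 ^ (n - 2 * k) * (1 / 4 : ℝ) ^ (2 * (k + 1))) := by gcongr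
      _ = ((n : ℝ) ^ k * 2 ^ (n - 2 * k)) * (1 / 4 : ℝ) ^ (2 * (k + 1)) := by ring
      _ ≤ _ := by gcongr
  calc ((k + 1 : ℕ) : ℝ) ^ 2 * (n : ℝ) ^ (k + 1) ≤ (n : ℝ) ^ 2 * (n : ℝ) ^ (k + 1) := by gcongr
    _ = ((n : ℝ) ^ 3 / (Real.sqrt 2) ^ n) * ((n : ℝ) ^ k * (Real.sqrt 2) ^ n) := by
        field_simp
        ring
    _ ≤ ((n : ℝ) ^ 3 / (Real.sqrt 2) ^ n) *
        (((T n k).card : ℝ) * (1 - p) ^ (2 * (k + 1) ^ 2)) := by gcongr
    _ = _ := by ring

theorem main (p : ℕ → ℝ) (hp : ∀ n, 0 < p n ∧ p n ≤ 1)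
    (hnp : Tendsto (fun n : ℕ => (n : ℝ) * p n) atTop atTop)
    (hlog : ∀ᶠ n : ℕ in atTop, 2 * ((n : ℝ) * p n ^ 2) ≤ Real.log (n * p n)) :
    Tendsto (fun n => prob n 1 (p n) (TwoBig (mp (p n)))) atTop (𝓝 1) := by
  -- `p n → 0`
  have hloglim : Tendsto (fun n : ℕ => Real.log ((n : ℝ) * p n) / ((n : ℝ) * p n)) atTop (𝓝 0) := by
    have h := Real.isLittleO_log_id_atTop.tendsto_div_nhds_zero
    exact h.comp hnp
  have hp0 : ∀ᶠ n : ℕ in atTop, p n ≤ 1 / 50 := by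
    have h1 := hloglim.eventually (gt_mem_nhds (show (0 : ℝ) < 1 / 50 by norm_num))
    filter_upwards [h1, hlog, hnp.eventually_ge_atTop 1] with n h1 h2 h3
    have hpos : (0 : ℝ) < n * p n := by linarith
    rw [div_lt_iff₀ hpos] at h1
    by_contra hcon
    push Not at hcon
    have : (n : ℝ) * p n ^ 2 = (n * p n) * p n := by ring
    rw [this] at h2
    nlinarith
  have hlogtop : Tendsto (fun n : ℕ => Real.log ((n : ℝ) * p n)) atTop atTop :=
    Real.tendsto_log_atTop.comp hnp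
  -- the mean tends to infinity
  have hmean : ∀ᶠ n : ℕ in atTop,
      (8 / 100) * Real.log ((n : ℝ) * p n) - 1 ≤ mean n (mp (p n)) (p n) ∧
      16 * (mp (p n) + 1) ≤ n := by
    filter_upwards [hp0, hlog, hnp.eventually_ge_atTop 32, hlogtop.eventually_ge_atTop 100]
      with n h1 h2 h3 h4
    have hpn := (hp n).1
    obtain ⟨b1, b2, b3, b4, b5⟩ := basic hpn h1
    have hk : 16 * (mp (p n) + 1) ≤ n := by
      have hpi : 1 ≤ 1 / (p n) := by
        rw [le_div_iff₀ hpn]; linarith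
      have hmp1 : (mp (p n) : ℝ) + 1 ≤ 2 / p n := by
        have : 2 / p n = 1 / p n + 1 / p n := by ring
        linarith
      have h5 : (2 : ℝ) / p n * 16 ≤ n := by
        rw [div_mul_eq_mul_div, div_le_iff₀ hpn]; linarith
      have : (16 : ℝ) * ((mp (p n) : ℝ) + 1) ≤ n := by linarith
      exact_mod_cast this
    refine ⟨?_, hk⟩
    refine le_trans ?_ (mean_lower hpn h1 (by omega))
    have hexp : ∀ y : ℝ, y ≤ Real.exp y := fun y => by linarith [Real.add_one_le_exp y]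
    refine le_trans ?_ (hexp _)
    set ℓ := Real.log ((n : ℝ) * p n) with hℓ
    have hnpos : (0 : ℝ) < n * p n := by linarith
    have hl4 : Real.log ((n : ℝ) * p n / 4) ≥ ℓ - 14 / 10 := by
      rw [Real.log_div (ne_of_gt hnpos) (by norm_num)]
      have : Real.log 4 = 2 * Real.log 2 := by
        rw [show (4 : ℝ) = 2 ^ 2 by norm_num, Real.log_pow]; norm_num
      have := Real.log_two_lt_d9
      linarith
    have hkl : (6 / 10) / p n * (ℓ - 14 / 10) ≤ (mp (p n) : ℝ) * Real.log ((n : ℝ) * p n / 4) := by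
      have hA : (0 : ℝ) ≤ ℓ - 14 / 10 := by linarith
      calc (6 / 10) / p n * (ℓ - 14 / 10) ≤ (mp (p n) : ℝ) * (ℓ - 14 / 10) :=
            mul_le_mul_of_nonneg_right b4 hA
        _ ≤ _ := mul_le_mul_of_nonneg_left hl4 (Nat.cast_nonneg _)
    have hnL : (n : ℝ) * (-Real.log (1 - p n)) ≤ (52 / 100) / p n * ℓ + 1 * 0 := by
      have hx : (n : ℝ) * (-Real.log (1 - p n)) ≤ n * (50 / 49 * p n) :=
        mul_le_mul_of_nonneg_left b2 (Nat.cast_nonneg _)
      have hy : (n : ℝ) * (50 / 49 * p n) = (50 / 49) * ((n : ℝ) * p n ^ 2) / p n := by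
        field_simp
      have hz : (50 / 49) * ((n : ℝ) * p n ^ 2) / p n ≤ (52 / 100) / p n * ℓ + 1 * 0 := by
        calc (50 / 49) * ((n : ℝ) * p n ^ 2) / p n ≤ ((52 / 100) * ℓ) / p n :=
              div_le_div_of_nonneg_right (by nlinarith) hpn.le
          _ = _ := by ring
      linarith
    have hfin : (8 / 100) * ℓ - 1 ≤ (6 / 10) / p n * (ℓ - 14 / 10) - (52 / 100) / p n * ℓ := by
      have : (6 / 10) / p n * (ℓ - 14 / 10) - (52 / 100) / p n * ℓ
          = ((8 / 100) * ℓ - 84 / 100) / p n := by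
        field_simp
        ring
      rw [this, le_div_iff₀ hpn]
      nlinarith
    linarith
  have hmeantop : Tendsto (fun n => mean n (mp (p n)) (p n)) atTop atTop := by
    apply tendsto_atTop_mono' _ (hmean.mono (fun n h => h.1))
    apply tendsto_atTop_add_const_right
    exact hlogtop.const_mul_atTop (by norm_num)
  have hsq : (1 : ℝ) < Real.sqrt 2 := by
    rw [show (1 : ℝ) = Real.sqrt 1 by simp]
    exact Real.sqrt_lt_sqrt (by norm_num) (by norm_num)
  have hδ := tendsto_pow_const_div_const_pow_of_one_lt 3 hsq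
  have hlow : Tendsto (fun n : ℕ => 1 - (4 / mean n (mp (p n)) (p n) +
      4 * ((n : ℝ) ^ 3 / (Real.sqrt 2) ^ n))) atTop (𝓝 1) := by
    have h1 : Tendsto (fun n : ℕ => 4 / mean n (mp (p n)) (p n)) atTop (𝓝 0) :=
      hmeantop.const_div_atTop 4
    have h2 := h1.add (hδ.const_mul 4)
    have h3 := h2.const_sub 1
    simpa using h3
  apply tendsto_of_tendsto_of_tendsto_of_le_of_le' hlow tendsto_const_nhds
  · filter_upwards [hmean, hp0, hmeantop.eventually_ge_atTop 2] with n h1 h2 h3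
    exact prob_twoBig_ge (hp n).1 (by linarith) (delta_ok (hp n).1 h2 h1.2) h3
  · filter_upwards with n
    exact prob_le_one (hp n).1.le (hp n).2 _

end H994Cube
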