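import Mathlib

/-!
# The random cubical graph `h_n` (problem MP_677ad5_pr): definitions
-/

open Filter Topology
open scoped Classical

namespace H994Cube

/-- The `n`-cube `Q_n`: the vertex set is `{0,1}^n`, and two vertices are adjacent when they differ
in exactly one coordinate. -/
def cube (n : ℕ) : SimpleGraph (Fin n → Bool) where
  Adj x y := hammingDist x y = 1
  symm := ⟨fun x y h => by rw [hammingDist_comm]; exact h⟩
  loopless := ⟨fun x h => by simp at h⟩

/-- The probability that the random cubical graph `h_n = (V_n, E_n)` equals `H`. First each vertex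
of `Q_n` is kept with probability `pv`, then each edge of `Q_n` with both ends kept is kept with
probability `pe`, all choices being independent. -/
noncomputable def weight {n : ℕ} (pv pe : ℝ) (H : (cube n).Subgraph) : ℝ :=
  (pv ^ H.verts.ncard * (1 - pv) ^ (2 ^ n - H.verts.ncard)) *
    (pe ^ H.edgeSet.ncard *
      (1 - pe) ^ ({e ∈ (cube n).edgeSet | ∀ v ∈ e, v ∈ H.verts}.ncard - H.edgeSet.ncard))

/-- The probability that the random cubical graph `h_n` has the property `A`. -/
noncomputable def prob (n : ℕ) (pv pe : ℝ) (A : (cube n).Subgraph → Prop) : ℝ :=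
  ∑ H : (cube n).Subgraph, if A H then weight pv pe H else 0

/-- `m_p = ⌊-1 / log₂ (1 - p)⌋`. -/
noncomputable def mp (p : ℝ) : ℕ := ⌊-1 / Real.logb 2 (1 - p)⌋₊

/-- The assertion of Q1 for one graph `H ⊆ Q_n`, with the error term `o(1)` equal to `ε`: some
component contains at least `(1 - ε) |V(H)|` vertices, every other component has at most `m`
vertices, and the largest of these other components has exactly `m` vertices. -/
def Assertion {n : ℕ} (m : ℕ) (ε : ℝ) (H : (cube n).Subgraph) : Prop :=
  ∃ C₁ : H.coe.ConnectedComponent,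
    (1 - ε) * (H.verts.ncard : ℝ) ≤ (C₁.supp.ncard : ℝ) ∧
    (∀ C : H.coe.ConnectedComponent, C ≠ C₁ → C.supp.ncard ≤ m) ∧
    (∃ C : H.coe.ConnectedComponent, C ≠ C₁ ∧ C.supp.ncard = m)

/-- Q1: if `p = pv * pe → 0` and `p n → ∞`, then with probability tending to `1` the assertion
holds for `h_n`, for a suitable error term `ε n → 0`. -/
def Question : Prop :=
  ∀ pv pe : ℕ → ℝ, (∀ n, 0 < pv n ∧ pv n ≤ 1) → (∀ n, 0 < pe n ∧ pe n ≤ 1) →
    Tendsto (fun n => pv n * pe n) atTop (𝓝 0) →
    Tendsto (fun n : ℕ => (n : ℝ) * (pv n * pe n)) atTop atTop →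
    ∃ ε : ℕ → ℝ, Tendsto ε atTop (𝓝 0) ∧
      Tendsto (fun n => prob n (pv n) (pe n) (Assertion (mp (pv n * pe n)) (ε n))) atTop (𝓝 1)

/-- At least two components of `H` have more than `m` vertices. -/
def TwoBig {n : ℕ} (m : ℕ) (H : (cube n).Subgraph) : Prop :=
  ∃ C C' : H.coe.ConnectedComponent, C ≠ C' ∧ m < C.supp.ncard ∧ m < C'.supp.ncard

end H994Cube
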