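import Mathlib

/-! Finite probability lemmas for the second moment argument. -/

namespace H994Cube

section Cyl
variable {α : Type*} [DecidableEq α]

/-- weight of the set `F` of kept elements -/
noncomputable def W (E : Finset α) (p : ℝ) (F : Finset α) : ℝ :=
  p ^ F.card * (1 - p) ^ (E.card - F.card)

lemma W_nonneg (E : Finset α) {p : ℝ} (h0 : 0 ≤ p) (h1 : p ≤ 1) (F : Finset α) : 0 ≤ W E p F := by
  unfold W
  have : 0 ≤ 1 - p := by linarith
  positivity

lemma sum_W (E : Finset α) (p : ℝ) : ∑ F ∈ E.powerset, W E p F = 1 := by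
  unfold W
  rw [Finset.sum_pow_mul_eq_add_pow]
  simp

lemma sum_W_cyl (E I O : Finset α) (hI : I ⊆ E) (hO : O ⊆ E) (hd : Disjoint I O) (p : ℝ) :
    ∑ F ∈ E.powerset with (I ⊆ F ∧ Disjoint O F), W E p F = p ^ I.card * (1 - p) ^ O.card := by
  have himg : E.powerset.filter (fun F => I ⊆ F ∧ Disjoint O F)
      = ((E \ (I ∪ O)).powerset).image (fun F => I ∪ F) := by
    ext F
    simp only [Finset.mem_filter, Finset.mem_powerset, Finset.mem_image]
    constructor
    · rintro ⟨hFE, hIF, hOF⟩
      refine ⟨F \ I, ?_, ?_⟩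
      · intro x hx
        rw [Finset.mem_sdiff] at hx ⊢
        refine ⟨hFE hx.1, ?_⟩
        rw [Finset.mem_union]
        rintro (h | h)
        · exact hx.2 h
        · exact Finset.disjoint_left.mp hOF h hx.1
      · rw [Finset.union_sdiff_of_subset hIF]
    · rintro ⟨F', hF', rfl⟩
      have h2 : ∀ x ∈ F', x ∈ E ∧ x ∉ I ∧ x ∉ O := by
        intro x hx
        have := hF' hx
        rw [Finset.mem_sdiff, Finset.mem_union] at this
        tauto
      refine ⟨Finset.union_subset hI (fun x hx => (h2 x hx).1), Finset.subset_union_left, ?_⟩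
      rw [Finset.disjoint_union_right]
      refine ⟨hd.symm, ?_⟩
      rw [Finset.disjoint_left]
      intro x hx hx'
      exact (h2 x hx').2.2 hx
  rw [himg, Finset.sum_image]
  · have hcard : ∀ F ∈ (E \ (I ∪ O)).powerset, W E p (I ∪ F)
        = (p ^ I.card * (1 - p) ^ O.card) * W (E \ (I ∪ O)) p F := by
      intro F hF
      rw [Finset.mem_powerset] at hF
      have hIF : Disjoint I F := by
        rw [Finset.disjoint_left]
        intro x hx hx'
        have := hF hx'
        rw [Finset.mem_sdiff, Finset.mem_union] at this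
        tauto
      have h1 : (I ∪ F).card = I.card + F.card := Finset.card_union_of_disjoint hIF
      have h2 : (E \ (I ∪ O)).card = E.card - (I.card + O.card) := by
        rw [Finset.card_sdiff_of_subset (Finset.union_subset hI hO),
          Finset.card_union_of_disjoint hd]
      have h3 : F.card ≤ (E \ (I ∪ O)).card := Finset.card_le_card hF
      have h4 : I.card + O.card ≤ E.card := by
        rw [← Finset.card_union_of_disjoint hd]
        exact Finset.card_le_card (Finset.union_subset hI hO)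
      unfold W
      rw [h1, h2, pow_add]
      have h5 : E.card - (I.card + F.card) = O.card + (E.card - (I.card + O.card) - F.card) := by
        omega
      rw [h5, pow_add]
      ring
    rw [Finset.sum_congr rfl hcard, ← Finset.mul_sum, sum_W, mul_one]
  · intro F hF F' hF' h
    have key : ∀ G ∈ ((E \ (I ∪ O)).powerset : Finset (Finset α)), (I ∪ G) \ I = G := by
      intro G hG
      rw [Finset.mem_powerset] at hG
      rw [Finset.union_sdiff_left]
      rw [Finset.sdiff_eq_self_iff_disjoint]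
      rw [Finset.disjoint_left]
      intro x hx hx'
      have := hG hx
      rw [Finset.mem_sdiff, Finset.mem_union] at this
      tauto
    have h' : I ∪ F = I ∪ F' := h
    rw [← key F hF, ← key F' hF', h']

end Cyl

/-- Chebyshev in the form used below. -/
lemma cheb {Ω : Type*} (s : Finset Ω) (w : Ω → ℝ) (hw : ∀ x ∈ s, 0 ≤ w x) (hw1 : ∑ x ∈ s, w x = 1)
    (N : Ω → ℕ) (a δ : ℝ) (ha : ∑ x ∈ s, w x * N x = a)
    (h2 : ∑ x ∈ s, w x * (N x : ℝ) ^ 2 ≤ a + (1 + δ) * a ^ 2) (ha2 : 2 ≤ a) :
    ∑ x ∈ s with N x ≤ 1, w x ≤ 4 / a + 4 * δ := by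
  have h3 : ∑ x ∈ s, w x * ((N x : ℝ) - a) ^ 2 ≤ a + δ * a ^ 2 := by
    have : ∑ x ∈ s, w x * ((N x : ℝ) - a) ^ 2
        = ∑ x ∈ s, w x * (N x : ℝ) ^ 2 - 2 * a * ∑ x ∈ s, w x * N x + a ^ 2 * ∑ x ∈ s, w x := by
      rw [Finset.mul_sum, Finset.mul_sum, ← Finset.sum_sub_distrib, ← Finset.sum_add_distrib]
      apply Finset.sum_congr rfl
      intro x _
      ring
    rw [this, ha, hw1]
    nlinarith
  have h4 : (∑ x ∈ s with N x ≤ 1, w x) * (a ^ 2 / 4) ≤ ∑ x ∈ s, w x * ((N x : ℝ) - a) ^ 2 := by
    rw [Finset.sum_mul]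
    calc ∑ x ∈ s with N x ≤ 1, w x * (a ^ 2 / 4)
        ≤ ∑ x ∈ s with N x ≤ 1, w x * ((N x : ℝ) - a) ^ 2 := by
          apply Finset.sum_le_sum
          intro x hx
          rw [Finset.mem_filter] at hx
          apply mul_le_mul_of_nonneg_left _ (hw x hx.1)
          have : (N x : ℝ) ≤ 1 := by exact_mod_cast hx.2
          have h0 : (0 : ℝ) ≤ N x := Nat.cast_nonneg _
          nlinarith
      _ ≤ ∑ x ∈ s, w x * ((N x : ℝ) - a) ^ 2 := by
          apply Finset.sum_le_sum_of_subset_of_nonneg (Finset.filter_subset _ _)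
          intro x hx _
          exact mul_nonneg (hw x hx) (sq_nonneg _)
  have ha0 : 0 < a := by linarith
  have h5 : (∑ x ∈ s with N x ≤ 1, w x) ≤ (a + δ * a ^ 2) / (a ^ 2 / 4) := by
    rw [le_div_iff₀ (by positivity)]
    linarith
  refine h5.trans (le_of_eq ?_)
  field_simp

end H994Cube
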