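import Pool.Agent.H994R2.CubeDefs

/-! Upward geodesic paths in the cube. -/

open scoped Classical

namespace H994Cube

variable {n k : ℕ}

/-- flip the `i`-th coordinate -/
def flip (v : Fin n → Bool) (i : Fin n) : Fin n → Bool := Function.update v i (!v i)

lemma flip_apply_self (v : Fin n → Bool) (i : Fin n) : flip v i i = !v i := by simp [flip]

lemma flip_apply_ne (v : Fin n → Bool) {i j : Fin n} (h : j ≠ i) : flip v i j = v j := by
  simp [flip, h]

lemma flip_inj (v : Fin n → Bool) {i j : Fin n} (h : flip v i = flip v j) : i = j := by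
  by_contra hij
  have h1 := congrFun h i
  rw [flip_apply_self, flip_apply_ne v hij] at h1
  cases hv : v i <;> simp [hv] at h1

lemma adj_iff (v w : Fin n → Bool) : (cube n).Adj v w ↔ ∃ i, w = flip v i := by
  constructor
  · intro h
    have h' : (Finset.univ.filter (fun i => v i ≠ w i)).card = 1 := h
    rw [Finset.card_eq_one] at h'
    obtain ⟨i, hi⟩ := h'
    refine ⟨i, ?_⟩
    funext j
    by_cases hj : j = i
    · subst hj
      rw [flip_apply_self]
      have : j ∈ Finset.univ.filter (fun i => v i ≠ w i) := by rw [hi]; simp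
      rw [Finset.mem_filter] at this
      have h2 := this.2
      cases hv : v j <;> cases hw : w j <;> simp_all
    · rw [flip_apply_ne v hj]
      by_contra hne
      have : j ∈ Finset.univ.filter (fun i => v i ≠ w i) := by
        rw [Finset.mem_filter]; exact ⟨Finset.mem_univ _, fun h => hne h.symm⟩
      rw [hi, Finset.mem_singleton] at this
      exact hj this
  · rintro ⟨i, rfl⟩
    change (Finset.univ.filter (fun j => v j ≠ flip v i j)).card = 1
    rw [Finset.card_eq_one]
    refine ⟨i, ?_⟩
    ext j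
    simp only [Finset.mem_filter, Finset.mem_univ, true_and, Finset.mem_singleton]
    by_cases hj : j = i
    · subst hj
      rw [flip_apply_self]
      cases v j <;> simp
    · rw [flip_apply_ne v hj]
      simp [hj]

/-- The `i`-th vertex of the upward path which starts at `t.1` and switches on the coordinates
`t.2 0, t.2 1, …` one after the other. -/
noncomputable def path (t : (Fin n → Bool) × (Fin k ↪ Fin n)) (i : ℕ) : Fin n → Bool :=
  fun c => t.1 c || decide (∃ l : Fin k, l.val < i ∧ t.2 l = c)

/-- valid index pairs: all switched coordinates are off at the start -/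
def Valid (t : (Fin n → Bool) × (Fin k ↪ Fin n)) : Prop := ∀ l, t.1 (t.2 l) = false

lemma path_succ {t : (Fin n → Bool) × (Fin k ↪ Fin n)} (ht : Valid t) {i : ℕ} (hi : i < k) :
    path t (i + 1) = flip (path t i) (t.2 ⟨i, hi⟩) ∧ path t i (t.2 ⟨i, hi⟩) = false := by
  have h1 : path t i (t.2 ⟨i, hi⟩) = false := by
    unfold path
    rw [ht]
    simp only [Bool.false_or, decide_eq_false_iff_not, not_exists, not_and]
    intro l hl h
    have := t.2.injective h
    rw [this] at hl
    simp at hl
  refine ⟨?_, h1⟩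
  funext c
  by_cases hc : c = t.2 ⟨i, hi⟩
  · rw [hc, flip_apply_self, h1]
    unfold path
    simp only [Bool.not_false, Bool.or_eq_true, decide_eq_true_eq]
    right
    exact ⟨⟨i, hi⟩, by simp, rfl⟩
  · rw [flip_apply_ne _ hc]
    unfold path
    congr 1
    rw [decide_eq_decide]
    constructor
    · rintro ⟨l, hl, hlc⟩
      refine ⟨l, ?_, hlc⟩
      rcases Nat.lt_succ_iff_lt_or_eq.mp hl with h | h
      · exact h
      · exfalso
        apply hc
        rw [← hlc]
        congr 1
        exact Fin.ext h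
    · rintro ⟨l, hl, hlc⟩
      exact ⟨l, by omega, hlc⟩

/-- number of ones -/
def lvl (v : Fin n → Bool) : ℕ := (Finset.univ.filter (fun c => v c = true)).card

lemma lvl_flip {v : Fin n → Bool} {i : Fin n} (h : v i = false) : lvl (flip v i) = lvl v + 1 := by
  unfold lvl
  have : Finset.univ.filter (fun c => flip v i c = true)
      = insert i (Finset.univ.filter (fun c => v c = true)) := by
    ext c
    simp only [Finset.mem_filter, Finset.mem_univ, true_and, Finset.mem_insert]
    by_cases hc : c = i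
    · subst hc
      rw [flip_apply_self, h]
      simp
    · rw [flip_apply_ne v hc]
      simp [hc]
  rw [this, Finset.card_insert_of_notMem]
  simp [h]

lemma path_zero (t : (Fin n → Bool) × (Fin k ↪ Fin n)) : path t 0 = t.1 := by
  funext c
  simp [path]

lemma lvl_path {t : (Fin n → Bool) × (Fin k ↪ Fin n)} (ht : Valid t) {i : ℕ} (hi : i ≤ k) :
    lvl (path t i) = lvl t.1 + i := by
  induction i with
  | zero => rw [path_zero, add_zero]
  | succ i ih =>
    obtain ⟨h1, h2⟩ := path_succ ht (show i < k by omega)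
    rw [h1, lvl_flip h2, ih (by omega)]
    ring

lemma path_adj {t : (Fin n → Bool) × (Fin k ↪ Fin n)} (ht : Valid t) {i : ℕ} (hi : i < k) :
    (cube n).Adj (path t i) (path t (i + 1)) := by
  rw [adj_iff]
  exact ⟨_, (path_succ ht hi).1⟩

lemma path_inj {t : (Fin n → Bool) × (Fin k ↪ Fin n)} (ht : Valid t) {i j : ℕ} (hi : i ≤ k)
    (hj : j ≤ k) (h : path t i = path t j) : i = j := by
  have := congrArg lvl h
  rw [lvl_path ht hi, lvl_path ht hj] at this
  omega

/-- vertex set of the path -/
noncomputable def S (t : (Fin n → Bool) × (Fin k ↪ Fin n)) : Finset (Fin n → Bool) :=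
  (Finset.range (k + 1)).image (path t)

/-- edge set of the cube -/
noncomputable def E (n : ℕ) : Finset (Sym2 (Fin n → Bool)) := (cube n).edgeFinset

/-- edge set of the path -/
noncomputable def I (t : (Fin n → Bool) × (Fin k ↪ Fin n)) : Finset (Sym2 (Fin n → Bool)) :=
  (Finset.range k).image (fun i => s(path t i, path t (i + 1)))

/-- edges leaving the path -/
noncomputable def O (t : (Fin n → Bool) × (Fin k ↪ Fin n)) : Finset (Sym2 (Fin n → Bool)) :=
  (E n).filter (fun e => ∃ v ∈ S t, ∃ w, w ∉ S t ∧ e = s(v, w))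

lemma mem_S {t : (Fin n → Bool) × (Fin k ↪ Fin n)} {v : Fin n → Bool} :
    v ∈ S t ↔ ∃ i, i ≤ k ∧ path t i = v := by
  unfold S
  rw [Finset.mem_image]
  constructor
  · rintro ⟨i, hi, h⟩
    rw [Finset.mem_range] at hi
    exact ⟨i, by omega, h⟩
  · rintro ⟨i, hi, h⟩
    exact ⟨i, by rw [Finset.mem_range]; omega, h⟩

lemma card_S {t : (Fin n → Bool) × (Fin k ↪ Fin n)} (ht : Valid t) : (S t).card = k + 1 := by
  unfold S
  rw [Finset.card_image_of_injOn, Finset.card_range]
  intro i hi j hj h
  simp only [Finset.coe_range, Set.mem_Iio] at hi hj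
  exact path_inj ht (by omega) (by omega) h

lemma I_sub_E {t : (Fin n → Bool) × (Fin k ↪ Fin n)} (ht : Valid t) : I t ⊆ E n := by
  intro e he
  unfold I at he
  rw [Finset.mem_image] at he
  obtain ⟨i, hi, rfl⟩ := he
  rw [Finset.mem_range] at hi
  unfold E
  rw [SimpleGraph.mem_edgeFinset, SimpleGraph.mem_edgeSet]
  exact path_adj ht hi

lemma O_sub_E (t : (Fin n → Bool) × (Fin k ↪ Fin n)) : O t ⊆ E n := Finset.filter_subset _ _

lemma I_mem {t : (Fin n → Bool) × (Fin k ↪ Fin n)} {e : Sym2 (Fin n → Bool)} (he : e ∈ I t) :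
    ∀ v ∈ e, v ∈ S t := by
  unfold I at he
  rw [Finset.mem_image] at he
  obtain ⟨i, hi, rfl⟩ := he
  rw [Finset.mem_range] at hi
  intro v hv
  rw [Sym2.mem_iff] at hv
  rw [mem_S]
  rcases hv with h | h
  · exact ⟨i, by omega, h.symm⟩
  · exact ⟨i + 1, by omega, h.symm⟩

lemma O_mem {t : (Fin n → Bool) × (Fin k ↪ Fin n)} {e : Sym2 (Fin n → Bool)} (he : e ∈ O t) :
    ∃ v ∈ S t, ∃ w, w ∉ S t ∧ e = s(v, w) := by
  unfold O at he
  rw [Finset.mem_filter] at he
  exact he.2

lemma card_I {t : (Fin n → Bool) × (Fin k ↪ Fin n)} (ht : Valid t) : (I t).card = k := by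
  unfold I
  rw [Finset.card_image_of_injOn, Finset.card_range]
  intro i hi j hj h
  simp only [Finset.coe_range, Set.mem_Iio] at hi hj
  have h' : s(path t i, path t (i + 1)) = s(path t j, path t (j + 1)) := h
  rw [Sym2.eq_iff] at h'
  rcases h' with ⟨h1, _⟩ | ⟨h1, h2⟩
  · exact path_inj ht (by omega) (by omega) h1
  · have h3 := path_inj ht (by omega) (by omega) h1
    have h4 := path_inj ht (by omega) (by omega) h2
    omega

lemma disj_IO {t t' : (Fin n → Bool) × (Fin k ↪ Fin n)} (h : S t = S t' ∨ Disjoint (S t) (S t')) :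
    Disjoint (I t) (O t') := by
  rw [Finset.disjoint_left]
  intro e he he'
  obtain ⟨v, hv, w, hw, rfl⟩ := O_mem he'
  have h1 := I_mem he v (by simp)
  have h2 := I_mem he w (by simp)
  rcases h with h | h
  · rw [h] at h2; exact hw h2
  · exact Finset.disjoint_left.mp h h1 hv

/-- the pairs (vertex of the path, direction) leaving the path -/
noncomputable def Out (t : (Fin n → Bool) × (Fin k ↪ Fin n)) :
    Finset ((Fin n → Bool) × Fin n) :=
  ((S t) ×ˢ (Finset.univ : Finset (Fin n))).filter (fun x => flip x.1 x.2 ∉ S t)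

lemma O_eq_image (t : (Fin n → Bool) × (Fin k ↪ Fin n)) :
    O t = (Out t).image (fun x => s(x.1, flip x.1 x.2)) := by
  ext e
  rw [Finset.mem_image]
  constructor
  · intro he
    have heE : e ∈ E n := O_sub_E t he
    obtain ⟨v, hv, w, hw, rfl⟩ := O_mem he
    unfold E at heE
    rw [SimpleGraph.mem_edgeFinset, SimpleGraph.mem_edgeSet, adj_iff] at heE
    obtain ⟨i, rfl⟩ := heE
    refine ⟨(v, i), ?_, rfl⟩
    unfold Out
    rw [Finset.mem_filter, Finset.mem_product]
    exact ⟨⟨hv, Finset.mem_univ _⟩, hw⟩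
  · rintro ⟨x, hx, rfl⟩
    unfold Out at hx
    rw [Finset.mem_filter, Finset.mem_product] at hx
    unfold O E
    rw [Finset.mem_filter, SimpleGraph.mem_edgeFinset, SimpleGraph.mem_edgeSet, adj_iff]
    exact ⟨⟨x.2, rfl⟩, x.1, hx.1.1, flip x.1 x.2, hx.2, rfl⟩

lemma card_O (t : (Fin n → Bool) × (Fin k ↪ Fin n)) : (O t).card = (Out t).card := by
  rw [O_eq_image, Finset.card_image_of_injOn]
  intro x hx y hy h
  rw [Finset.mem_coe] at hx hy
  unfold Out at hx hy
  rw [Finset.mem_filter, Finset.mem_product] at hx hy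
  have h' : s(x.1, flip x.1 x.2) = s(y.1, flip y.1 y.2) := h
  rw [Sym2.eq_iff] at h'
  rcases h' with ⟨h1, h2⟩ | ⟨h1, h2⟩
  · rw [← h1] at h2
    exact Prod.ext h1 (flip_inj _ h2)
  · exfalso
    apply hy.2
    rw [← h1]
    exact hx.1.1

lemma card_O_le {t : (Fin n → Bool) × (Fin k ↪ Fin n)} (ht : Valid t) :
    (O t).card ≤ (k + 1) * n := by
  rw [card_O]
  unfold Out
  refine (Finset.card_filter_le _ _).trans ?_
  rw [Finset.card_product, card_S ht, Finset.card_univ, Fintype.card_fin]

lemma card_O_ge {t : (Fin n → Bool) × (Fin k ↪ Fin n)} (ht : Valid t) :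
    (k + 1) * n ≤ (O t).card + (k + 1) ^ 2 := by
  rw [card_O]
  have h1 : (k + 1) * n = ((S t) ×ˢ (Finset.univ : Finset (Fin n))).card := by
    rw [Finset.card_product, card_S ht, Finset.card_univ, Fintype.card_fin]
  have h2 := Finset.card_filter_add_card_filter_not (s := (S t) ×ˢ (Finset.univ : Finset (Fin n)))
    (fun x => flip x.1 x.2 ∉ S t)
  rw [h1, ← h2]
  unfold Out
  have h3 : (((S t) ×ˢ (Finset.univ : Finset (Fin n))).filter
      (fun x => ¬ (flip x.1 x.2 ∉ S t))).card ≤ ((S t) ×ˢ (S t)).card := by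
    apply Finset.card_le_card_of_injOn (fun x => (x.1, flip x.1 x.2))
    · intro x hx
      rw [Finset.mem_coe, Finset.mem_filter, Finset.mem_product] at hx
      rw [Finset.mem_coe, Finset.mem_product]
      exact ⟨hx.1.1, not_not.mp hx.2⟩
    · intro x hx y hy h
      have h' : (x.1, flip x.1 x.2) = (y.1, flip y.1 y.2) := h
      rw [Prod.mk.injEq] at h'
      obtain ⟨h1, h2⟩ := h'
      rw [← h1] at h2
      exact Prod.ext h1 (flip_inj _ h2)
  rw [Finset.card_product, card_S ht] at h3
  have : (k + 1) * (k + 1) = (k + 1) ^ 2 := by ring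
  omega

/-- If both paths are isolated path components of `F`, they are equal or disjoint. -/
lemma same_or_disjoint {t t' : (Fin n → Bool) × (Fin k ↪ Fin n)} (ht : Valid t) (ht' : Valid t')
    (F : Finset (Sym2 (Fin n → Bool)))
    (h : I t ⊆ F ∧ Disjoint (O t) F) (h' : I t' ⊆ F ∧ Disjoint (O t') F)
    (hne : ¬ Disjoint (S t) (S t')) : S t = S t' := by
  have key : ∀ (t t' : (Fin n → Bool) × (Fin k ↪ Fin n)), Valid t → Valid t' →
      (I t ⊆ F ∧ Disjoint (O t) F) → (I t' ⊆ F ∧ Disjoint (O t') F) →
      ¬ Disjoint (S t) (S t') → S t ⊆ S t' := by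
    intro t t' ht ht' h h' hne
    rw [Finset.not_disjoint_iff] at hne
    obtain ⟨v, hv, hv'⟩ := hne
    rw [mem_S] at hv
    obtain ⟨i0, hi0, rfl⟩ := hv
    have step : ∀ i, i < k → (path t i ∈ S t' ↔ path t (i + 1) ∈ S t') := by
      intro i hi
      have hmem : s(path t i, path t (i + 1)) ∈ I t := by
        unfold I
        rw [Finset.mem_image]
        exact ⟨i, by rw [Finset.mem_range]; exact hi, rfl⟩
      have hF := h.1 hmem
      have hE : s(path t i, path t (i + 1)) ∈ E n := I_sub_E ht hmem
      constructor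
      · intro h1
        by_contra h2
        apply Finset.disjoint_left.mp h'.2 _ hF
        unfold O
        rw [Finset.mem_filter]
        exact ⟨hE, _, h1, _, h2, rfl⟩
      · intro h1
        by_contra h2
        apply Finset.disjoint_left.mp h'.2 _ hF
        unfold O
        rw [Finset.mem_filter]
        exact ⟨hE, _, h1, _, h2, Sym2.eq_swap⟩
    have all : ∀ i, i ≤ k → (path t i ∈ S t' ↔ path t 0 ∈ S t') := by
      intro i
      induction i with
      | zero => intro _; rfl
      | succ i ih =>
        intro hi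
        rw [← step i (by omega), ih (by omega)]
    intro w hw
    rw [mem_S] at hw
    obtain ⟨i, hi, rfl⟩ := hw
    rw [all i hi, ← all i0 hi0]
    exact hv'
  apply Finset.Subset.antisymm
  · exact key t t' ht ht' h h' hne
  · exact key t' t ht' ht h' h (fun hd => hne hd.symm)

lemma S_inj {t t' : (Fin n → Bool) × (Fin k ↪ Fin n)} (ht : Valid t) (ht' : Valid t')
    (h : S t = S t') : t = t' := by
  -- the minimal levels agree
  have key : ∀ (t t' : (Fin n → Bool) × (Fin k ↪ Fin n)), Valid t → Valid t' → S t = S t' →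
      lvl t'.1 ≤ lvl t.1 := by
    intro t t' ht ht' h
    have h0 : t.1 ∈ S t' := by
      rw [← h, mem_S]
      exact ⟨0, by omega, path_zero t⟩
    rw [mem_S] at h0
    obtain ⟨i, hi, hi'⟩ := h0
    rw [← hi', lvl_path ht' hi]
    omega
  have hl : lvl t.1 = lvl t'.1 := le_antisymm (key t' t ht' ht h.symm) (key t t' ht ht' h)
  have hp : ∀ i, i ≤ k → path t i = path t' i := by
    intro i hi
    have h0 : path t i ∈ S t' := by
      rw [← h, mem_S]
      exact ⟨i, hi, rfl⟩
    rw [mem_S] at h0
    obtain ⟨j, hj, hj'⟩ := h0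
    have := congrArg lvl hj'
    rw [lvl_path ht' hj, lvl_path ht hi] at this
    have hij : j = i := by omega
    rw [← hj', hij]
  have h1 : t.1 = t'.1 := by
    have := hp 0 (by omega)
    rwa [path_zero, path_zero] at this
  have h2 : t.2 = t'.2 := by
    ext l
    have e1 := (path_succ ht l.2).1
    have e2 := (path_succ ht' l.2).1
    rw [← hp _ l.2.le, ← hp (l.1 + 1) l.2] at e2
    rw [e1] at e2
    have := flip_inj _ e2
    simp only [Fin.eta] at this
    rw [this]
  exact Prod.ext h1 h2

end H994Cube
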