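import Pool.Agent.H994R2.CubeFin
import Pool.Agent.H994R2.CubePath

/-! Second moment of the number of isolated upward paths. -/

open scoped Classical

namespace H994Cube

/-- the index set -/
noncomputable def T (n k : ℕ) : Finset ((Fin n → Bool) × (Fin k ↪ Fin n)) :=
  Finset.univ.filter (fun t => Valid t)

lemma mem_T {n k : ℕ} {t : (Fin n → Bool) × (Fin k ↪ Fin n)} : t ∈ T n k ↔ Valid t := by
  unfold T; simp

lemma card_T (n k : ℕ) : (T n k).card = n.descFactorial k * 2 ^ (n - k) := by
  have h1 : T n k = (Finset.univ : Finset (Fin k ↪ Fin n)).biUnion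
      (fun σ => (Finset.univ.filter (fun x : Fin n → Bool => ∀ l, x (σ l) = false)).image
        (fun x => (x, σ))) := by
    ext t
    rw [mem_T]
    simp only [Finset.mem_biUnion, Finset.mem_univ, true_and, Finset.mem_image, Finset.mem_filter]
    constructor
    · intro h
      exact ⟨t.2, t.1, h, rfl⟩
    · rintro ⟨σ, x, hx, rfl⟩
      exact hx
  rw [h1, Finset.card_biUnion]
  · have h2 : ∀ σ : Fin k ↪ Fin n,
        ((Finset.univ.filter (fun x : Fin n → Bool => ∀ l, x (σ l) = false)).image
        (fun x => (x, σ))).card = 2 ^ (n - k) := by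
      intro σ
      rw [Finset.card_image_of_injective _ (fun a b h => (Prod.mk.inj h).1)]
      have h3 : Finset.univ.filter (fun x : Fin n → Bool => ∀ l, x (σ l) = false)
          = Fintype.piFinset (fun j => if j ∈ Set.range σ then ({false} : Finset Bool)
              else Finset.univ) := by
        ext x
        rw [Finset.mem_filter, Fintype.mem_piFinset]
        constructor
        · rintro ⟨_, h⟩ j
          by_cases hj : j ∈ Set.range σ
          · rw [if_pos hj]
            obtain ⟨l, rfl⟩ := hj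
            simp [h l]
          · rw [if_neg hj]; simp
        · intro h
          refine ⟨Finset.mem_univ _, fun l => ?_⟩
          have := h (σ l)
          rw [if_pos ⟨l, rfl⟩] at this
          simpa using this
      rw [h3, Fintype.card_piFinset]
      have h4 : ∀ j, (if j ∈ Set.range σ then ({false} : Finset Bool) else Finset.univ).card
          = if j ∈ Set.range σ then 1 else 2 := by
        intro j
        split_ifs <;> simp
      rw [Finset.prod_congr rfl (fun j _ => h4 j), Finset.prod_ite]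
      simp only [Finset.prod_const_one, one_mul, Finset.prod_const]
      congr 1
      have h5 : (Finset.univ.filter (fun j => j ∈ Set.range σ)).card = k := by
        have : Finset.univ.filter (fun j => j ∈ Set.range σ) = Finset.univ.image σ := by
          ext j; simp
        rw [this, Finset.card_image_of_injective _ σ.injective, Finset.card_univ, Fintype.card_fin]
      have h6 := Finset.card_filter_add_card_filter_not (s := (Finset.univ : Finset (Fin n)))
        (fun j => j ∈ Set.range σ)
      rw [h5, Finset.card_univ, Fintype.card_fin] at h6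
      omega
    rw [Finset.sum_congr rfl (fun σ _ => h2 σ), Finset.sum_const, Finset.card_univ,
      Fintype.card_embedding_eq, Fintype.card_fin, Fintype.card_fin, smul_eq_mul]
  · intro σ _ σ' _ hne
    rw [Function.onFun, Finset.disjoint_left]
    intro t ht ht'
    rw [Finset.mem_image] at ht ht'
    obtain ⟨x, _, rfl⟩ := ht
    obtain ⟨y, _, h⟩ := ht'
    exact hne (Prod.mk.inj h).2.symm

/-- number of paths near to a given path -/
lemma card_near {n k : ℕ} {t : (Fin n → Bool) × (Fin k ↪ Fin n)} (ht : Valid t) :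
    ((T n k).filter (fun t' => Disjoint (S t) (S t') ∧ ¬ Disjoint (O t) (O t'))).card
      ≤ (k + 1) ^ 2 * n ^ (k + 1) := by
  let g : (Fin (k + 1) × Fin n × Fin (k + 1)) × (Fin k ↪ Fin n) →
      (Fin n → Bool) × (Fin k ↪ Fin n) :=
    fun a => (fun c => (flip (path t a.1.1.val) a.1.2.1) c &&
      !decide (∃ l : Fin k, l.val < a.1.2.2.val ∧ a.2 l = c), a.2)
  have hsub : (T n k).filter (fun t' => Disjoint (S t) (S t') ∧ ¬ Disjoint (O t) (O t'))
      ⊆ Finset.univ.image g := by
    intro t' ht'
    rw [Finset.mem_filter, mem_T] at ht'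
    obtain ⟨hv', hd, hO⟩ := ht'
    rw [Finset.not_disjoint_iff] at hO
    obtain ⟨e, he, he'⟩ := hO
    have heE : e ∈ E n := O_sub_E t he
    obtain ⟨v, hv, w, hw, rfl⟩ := O_mem he
    obtain ⟨v', hv'', w', hw', hee⟩ := O_mem he'
    rw [Sym2.eq_iff] at hee
    have hw'S : w ∈ S t' := by
      rcases hee with ⟨h1, h2⟩ | ⟨h1, h2⟩
      · exfalso
        rw [← h1] at hv''
        exact Finset.disjoint_left.mp hd hv hv''
      · rw [h2]; exact hv''
    unfold E at heE
    rw [SimpleGraph.mem_edgeFinset, SimpleGraph.mem_edgeSet, adj_iff] at heE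
    obtain ⟨i, rfl⟩ := heE
    rw [mem_S] at hv hw'S
    obtain ⟨a, ha, rfl⟩ := hv
    obtain ⟨b, hb, hb'⟩ := hw'S
    rw [Finset.mem_image]
    refine ⟨((⟨a, by omega⟩, i, ⟨b, by omega⟩), t'.2), Finset.mem_univ _, ?_⟩
    refine Prod.ext ?_ rfl
    funext c
    change (flip (path t a) i c && !decide (∃ l : Fin k, l.val < b ∧ t'.2 l = c)) = t'.1 c
    rw [← hb']
    unfold path
    by_cases hc : ∃ l : Fin k, l.val < b ∧ t'.2 l = c
    · have : t'.1 c = false := by
        obtain ⟨l, _, rfl⟩ := hc
        exact hv' l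
      simp [hc, this]
    · simp [hc]
  refine (Finset.card_le_card hsub).trans ?_
  refine Finset.card_image_le.trans ?_
  rw [Finset.card_univ]
  simp only [Fintype.card_prod, Fintype.card_fin, Fintype.card_embedding_eq]
  have := Nat.descFactorial_le_pow n k
  calc (k + 1) * (n * (k + 1)) * n.descFactorial k ≤ (k + 1) * (n * (k + 1)) * n ^ k :=
        Nat.mul_le_mul_left _ this
    _ = (k + 1) ^ 2 * n ^ (k + 1) := by ring

lemma card_OO {n k : ℕ} {t t' : (Fin n → Bool) × (Fin k ↪ Fin n)} (ht : Valid t) (ht' : Valid t')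
    (hd : Disjoint (S t) (S t')) : (O t ∩ O t').card ≤ (k + 1) ^ 2 := by
  have hsub : O t ∩ O t' ⊆ ((S t) ×ˢ (S t')).image (fun x => s(x.1, x.2)) := by
    intro e he
    rw [Finset.mem_inter] at he
    obtain ⟨v, hv, w, hw, rfl⟩ := O_mem he.1
    obtain ⟨v', hv', w', hw', hee⟩ := O_mem he.2
    rw [Sym2.eq_iff] at hee
    rw [Finset.mem_image]
    rcases hee with ⟨h1, h2⟩ | ⟨h1, h2⟩
    · exfalso
      rw [← h1] at hv'
      exact Finset.disjoint_left.mp hd hv hv'
    · refine ⟨(v, v'), ?_, by rw [h2]⟩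
      rw [Finset.mem_product]
      exact ⟨hv, hv'⟩
  refine (Finset.card_le_card hsub).trans ?_
  refine Finset.card_image_le.trans ?_
  rw [Finset.card_product, card_S ht, card_S ht']
  exact le_of_eq (by ring)

/-- the event that the path is an isolated component -/
def A {n k : ℕ} (t : (Fin n → Bool) × (Fin k ↪ Fin n)) (F : Finset (Sym2 (Fin n → Bool))) : Prop :=
  I t ⊆ F ∧ Disjoint (O t) F

/-- number of isolated paths -/
noncomputable def N {n : ℕ} (k : ℕ) (F : Finset (Sym2 (Fin n → Bool))) : ℕ :=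
  ((T n k).filter (fun t => A t F)).card

/-- mean number of isolated paths -/
noncomputable def mean (n k : ℕ) (p : ℝ) : ℝ := ∑ t ∈ T n k, p ^ k * (1 - p) ^ (O t).card

lemma prob_A {n k : ℕ} {t : (Fin n → Bool) × (Fin k ↪ Fin n)} (ht : Valid t) (p : ℝ) :
    ∑ F ∈ (E n).powerset with A t F, W (E n) p F = p ^ k * (1 - p) ^ (O t).card := by
  have := sum_W_cyl (E n) (I t) (O t) (I_sub_E ht) (O_sub_E t) (disj_IO (Or.inl rfl)) p
  rw [card_I ht] at this
  rw [← this]
  apply Finset.sum_congr _ (fun _ _ => rfl)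
  ext F
  rw [Finset.mem_filter, Finset.mem_filter, A]

lemma disj_II {n k : ℕ} {t t' : (Fin n → Bool) × (Fin k ↪ Fin n)}
    (hd : Disjoint (S t) (S t')) : Disjoint (I t) (I t') := by
  rw [Finset.disjoint_left]
  intro e he he'
  obtain ⟨v, w⟩ := e
  have hv : v ∈ s(v, w) := Sym2.mem_mk_left v w
  exact Finset.disjoint_left.mp hd (I_mem he v hv) (I_mem he' v hv)

lemma prob_AA {n k : ℕ} {t t' : (Fin n → Bool) × (Fin k ↪ Fin n)} (ht : Valid t) (ht' : Valid t')
    (hd : Disjoint (S t) (S t')) (p : ℝ) :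
    ∑ F ∈ (E n).powerset with (A t F ∧ A t' F), W (E n) p F
      = p ^ (2 * k) * (1 - p) ^ (O t ∪ O t').card := by
  have d1 : Disjoint (I t) (O t) := disj_IO (Or.inl rfl)
  have d2 : Disjoint (I t) (O t') := disj_IO (Or.inr hd)
  have d3 : Disjoint (I t') (O t) := disj_IO (Or.inr hd.symm)
  have d4 : Disjoint (I t') (O t') := disj_IO (Or.inl rfl)
  have h1 : Disjoint (I t ∪ I t') (O t ∪ O t') := by
    rw [Finset.disjoint_union_left, Finset.disjoint_union_right, Finset.disjoint_union_right]
    exact ⟨⟨d1, d2⟩, d3, d4⟩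
  have h2 : Disjoint (I t) (I t') := disj_II hd
  have := sum_W_cyl (E n) (I t ∪ I t') (O t ∪ O t')
    (Finset.union_subset (I_sub_E ht) (I_sub_E ht')) (Finset.union_subset (O_sub_E t) (O_sub_E t'))
    h1 p
  rw [Finset.card_union_of_disjoint h2, card_I ht, card_I ht', ← two_mul] at this
  rw [← this]
  apply Finset.sum_congr _ (fun _ _ => rfl)
  ext F
  rw [Finset.mem_filter, Finset.mem_filter, A, A, Finset.union_subset_iff,
    Finset.disjoint_union_left]
  constructor
  · rintro ⟨h3, ⟨h4, h5⟩, h6, h7⟩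
    exact ⟨h3, ⟨h4, h6⟩, h5, h7⟩
  · rintro ⟨h3, ⟨h4, h6⟩, h5, h7⟩
    exact ⟨h3, ⟨h4, h5⟩, h6, h7⟩

lemma mean_eq {n k : ℕ} (p : ℝ) :
    ∑ F ∈ (E n).powerset, W (E n) p F * (N k F : ℝ) = mean n k p := by
  unfold mean N
  have h1 : ∀ F ∈ (E n).powerset, W (E n) p F * (((T n k).filter (fun t => A t F)).card : ℝ)
      = ∑ t ∈ T n k, if A t F then W (E n) p F else 0 := by
    intro F _
    rw [← Finset.sum_filter, Finset.sum_const, nsmul_eq_mul]
    ring
  rw [Finset.sum_congr rfl h1, Finset.sum_comm]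
  apply Finset.sum_congr rfl
  intro t ht
  rw [← Finset.sum_filter, prob_A (mem_T.mp ht)]

lemma second_eq {n k : ℕ} (p : ℝ) :
    ∑ F ∈ (E n).powerset, W (E n) p F * (N k F : ℝ) ^ 2
      = ∑ t ∈ T n k, ∑ t' ∈ T n k, ∑ F ∈ (E n).powerset with (A t F ∧ A t' F), W (E n) p F := by
  unfold N
  have h1 : ∀ F ∈ (E n).powerset, W (E n) p F * (((T n k).filter (fun t => A t F)).card : ℝ) ^ 2
      = ∑ t ∈ T n k, ∑ t' ∈ T n k, if (A t F ∧ A t' F) then W (E n) p F else 0 := by
    intro F _
    have h2 : (((T n k).filter (fun t => A t F)).card : ℝ)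
        = ∑ t ∈ T n k, if A t F then (1 : ℝ) else 0 := by
      rw [← Finset.sum_filter, Finset.sum_const, nsmul_eq_mul, mul_one]
    rw [h2, sq, Finset.sum_mul_sum, Finset.mul_sum]
    apply Finset.sum_congr rfl
    intro t _
    rw [Finset.mul_sum]
    apply Finset.sum_congr rfl
    intro t' _
    by_cases h : A t F <;> by_cases h' : A t' F <;> simp [h, h']
  rw [Finset.sum_congr rfl h1, Finset.sum_comm]
  apply Finset.sum_congr rfl
  intro t _
  rw [Finset.sum_comm]
  apply Finset.sum_congr rfl
  intro t' _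
  rw [Finset.sum_filter]

lemma mean_ge {n k : ℕ} {p : ℝ} (h0 : 0 ≤ p) (h1 : p ≤ 1) :
    ((T n k).card : ℝ) * (p ^ k * (1 - p) ^ ((k + 1) * n)) ≤ mean n k p := by
  unfold mean
  rw [← nsmul_eq_mul, ← Finset.sum_const]
  apply Finset.sum_le_sum
  intro t ht
  apply mul_le_mul_of_nonneg_left _ (by positivity)
  exact pow_le_pow_of_le_one (by linarith) (by linarith) (card_O_le (mem_T.mp ht))

lemma second_le {n k : ℕ} {p δ : ℝ} (h0 : 0 < p) (h1 : p < 1)
    (hδ : ((k + 1 : ℕ) : ℝ) ^ 2 * (n : ℝ) ^ (k + 1) ≤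
      δ * (T n k).card * (1 - p) ^ (2 * (k + 1) ^ 2)) :
    ∑ F ∈ (E n).powerset, W (E n) p F * (N k F : ℝ) ^ 2
      ≤ mean n k p + (1 + δ) * (mean n k p) ^ 2 := by
  have hq : 0 < 1 - p := by linarith
  have hmean0 : 0 ≤ mean n k p := by
    unfold mean
    apply Finset.sum_nonneg
    intro t _
    positivity
  rw [second_eq]
  have key : ∀ t ∈ T n k, ∑ t' ∈ T n k, ∑ F ∈ (E n).powerset with (A t F ∧ A t' F), W (E n) p F
      ≤ p ^ k * (1 - p) ^ (O t).card * (1 + (1 + δ) * mean n k p) := by
    intro t ht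
    have hVt := mem_T.mp ht
    -- split
    have hpt : ∀ t' ∈ T n k, ∑ F ∈ (E n).powerset with (A t F ∧ A t' F), W (E n) p F
        ≤ (if t' = t then p ^ k * (1 - p) ^ (O t).card else 0)
          + (p ^ k * (1 - p) ^ (O t).card) * (p ^ k * (1 - p) ^ (O t').card)
          + (if (Disjoint (S t) (S t') ∧ ¬ Disjoint (O t) (O t')) then
              (p ^ k * (1 - p) ^ (O t).card) * (p ^ k * ((1 - p) ^ ((k + 1) * n) /
                (1 - p) ^ (2 * (k + 1) ^ 2))) else 0) := by
      intro t' ht'
      have hVt' := mem_T.mp ht'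
      have hn1 : 0 ≤ (p ^ k * (1 - p) ^ (O t).card) * (p ^ k * (1 - p) ^ (O t').card) := by
        positivity
      have hn2 : 0 ≤ (if (Disjoint (S t) (S t') ∧ ¬ Disjoint (O t) (O t')) then
              (p ^ k * (1 - p) ^ (O t).card) * (p ^ k * ((1 - p) ^ ((k + 1) * n) /
                (1 - p) ^ (2 * (k + 1) ^ 2))) else 0) := by
        split_ifs
        · positivity
        · exact le_refl _
      have hn3 : 0 ≤ (if t' = t then p ^ k * (1 - p) ^ (O t).card else 0) := by
        split_ifs
        · positivity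
        · exact le_refl _
      by_cases htt : t' = t
      · subst htt
        have : ∑ F ∈ (E n).powerset with (A t' F ∧ A t' F), W (E n) p F
            = p ^ k * (1 - p) ^ (O t').card := by
          rw [← prob_A hVt]
          apply Finset.sum_congr _ (fun _ _ => rfl)
          ext F
          simp
        rw [this, if_pos rfl]
        linarith
      · by_cases hd : Disjoint (S t) (S t')
        · rw [prob_AA hVt hVt' hd]
          by_cases hO : Disjoint (O t) (O t')
          · rw [Finset.card_union_of_disjoint hO]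
            have : p ^ (2 * k) * (1 - p) ^ ((O t).card + (O t').card)
                = (p ^ k * (1 - p) ^ (O t).card) * (p ^ k * (1 - p) ^ (O t').card) := by
              rw [pow_add, two_mul, pow_add]; ring
            rw [this]
            linarith
          · rw [if_pos (⟨hd, hO⟩ : Disjoint (S t) (S t') ∧ ¬ Disjoint (O t) (O t'))]
            have hcard : (O t).card + (k + 1) * n ≤ (O t ∪ O t').card + 2 * (k + 1) ^ 2 := by
              have e1 := Finset.card_union_add_card_inter (O t) (O t')
              have e2 := card_OO hVt hVt' hd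
              have e3 := card_O_ge hVt'
              omega
            have : p ^ (2 * k) * (1 - p) ^ (O t ∪ O t').card
                ≤ (p ^ k * (1 - p) ^ (O t).card) * (p ^ k * ((1 - p) ^ ((k + 1) * n) /
                (1 - p) ^ (2 * (k + 1) ^ 2))) := by
              have e4 : (1 - p) ^ (O t ∪ O t').card ≤ (1 - p) ^ (O t).card *
                  ((1 - p) ^ ((k + 1) * n) / (1 - p) ^ (2 * (k + 1) ^ 2)) := by
                rw [← mul_div_assoc, le_div_iff₀ (by positivity), ← pow_add, ← pow_add]
                exact pow_le_pow_of_le_one hq.le (by linarith) hcard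
              calc p ^ (2 * k) * (1 - p) ^ (O t ∪ O t').card
                  ≤ p ^ (2 * k) * ((1 - p) ^ (O t).card *
                  ((1 - p) ^ ((k + 1) * n) / (1 - p) ^ (2 * (k + 1) ^ 2))) :=
                    mul_le_mul_of_nonneg_left e4 (by positivity)
                _ = _ := by rw [two_mul, pow_add]; ring
            linarith
        · have : ∑ F ∈ (E n).powerset with (A t F ∧ A t' F), W (E n) p F = 0 := by
            apply Finset.sum_eq_zero
            intro F hF
            rw [Finset.mem_filter] at hF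
            exfalso
            apply htt
            exact (S_inj hVt hVt' (same_or_disjoint hVt hVt' F hF.2.1 hF.2.2 hd)).symm
          rw [this]
          positivity
    refine (Finset.sum_le_sum hpt).trans ?_
    rw [Finset.sum_add_distrib, Finset.sum_add_distrib, Finset.sum_ite_eq' (T n k) t,
      if_pos ht, ← Finset.mul_sum, ← Finset.sum_filter, Finset.sum_const, nsmul_eq_mul]
    have hm : ∑ t' ∈ T n k, p ^ k * (1 - p) ^ (O t').card = mean n k p := rfl
    rw [hm]
    have hnear := card_near hVt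
    have hnear' : (((T n k).filter
        (fun t' => Disjoint (S t) (S t') ∧ ¬ Disjoint (O t) (O t'))).card : ℝ)
        ≤ ((k + 1 : ℕ) : ℝ) ^ 2 * (n : ℝ) ^ (k + 1) := by
      exact_mod_cast hnear
    have hbd : (((T n k).filter
        (fun t' => Disjoint (S t) (S t') ∧ ¬ Disjoint (O t) (O t'))).card : ℝ)
        * (p ^ k * ((1 - p) ^ ((k + 1) * n) / (1 - p) ^ (2 * (k + 1) ^ 2)))
        ≤ δ * mean n k p := by
      have hδ0 : 0 ≤ δ := by
        by_contra hneg
        push Not at hneg
        have hcardpos : (0 : ℝ) < (T n k).card := by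
          exact_mod_cast Finset.card_pos.mpr ⟨t, ht⟩
        have : δ * (T n k).card * (1 - p) ^ (2 * (k + 1) ^ 2) < 0 :=
          mul_neg_of_neg_of_pos (mul_neg_of_neg_of_pos hneg hcardpos) (by positivity)
        have h3 : (0 : ℝ) ≤ ((k + 1 : ℕ) : ℝ) ^ 2 * (n : ℝ) ^ (k + 1) := by positivity
        linarith
      calc _ ≤ (((k + 1 : ℕ) : ℝ) ^ 2 * (n : ℝ) ^ (k + 1)) *
              (p ^ k * ((1 - p) ^ ((k + 1) * n) / (1 - p) ^ (2 * (k + 1) ^ 2))) :=
            mul_le_mul_of_nonneg_right hnear' (by positivity)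
        _ ≤ (δ * (T n k).card * (1 - p) ^ (2 * (k + 1) ^ 2)) *
              (p ^ k * ((1 - p) ^ ((k + 1) * n) / (1 - p) ^ (2 * (k + 1) ^ 2))) :=
            mul_le_mul_of_nonneg_right hδ (by positivity)
        _ = δ * ((T n k).card * (p ^ k * (1 - p) ^ ((k + 1) * n))) := by
            field_simp
        _ ≤ δ * mean n k p := mul_le_mul_of_nonneg_left (mean_ge h0.le h1.le) hδ0
    have hP : 0 ≤ p ^ k * (1 - p) ^ (O t).card := by positivity
    calc _ = p ^ k * (1 - p) ^ (O t).card * (1 + mean n k p +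
          (((T n k).filter
        (fun t' => Disjoint (S t) (S t') ∧ ¬ Disjoint (O t) (O t'))).card : ℝ)
        * (p ^ k * ((1 - p) ^ ((k + 1) * n) / (1 - p) ^ (2 * (k + 1) ^ 2)))) := by ring
      _ ≤ p ^ k * (1 - p) ^ (O t).card * (1 + mean n k p + δ * mean n k p) := by
          apply mul_le_mul_of_nonneg_left _ hP
          linarith
      _ = _ := by ring
  refine (Finset.sum_le_sum key).trans ?_
  rw [← Finset.sum_mul]
  have hm : ∑ t' ∈ T n k, p ^ k * (1 - p) ^ (O t').card = mean n k p := rfl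
  rw [hm]
  exact le_of_eq (by ring)

/-- Few isolated paths is unlikely. -/
lemma few_le {n k : ℕ} {p δ : ℝ} (h0 : 0 < p) (h1 : p < 1)
    (hδ : ((k + 1 : ℕ) : ℝ) ^ 2 * (n : ℝ) ^ (k + 1) ≤
      δ * (T n k).card * (1 - p) ^ (2 * (k + 1) ^ 2)) (hm : 2 ≤ mean n k p) :
    ∑ F ∈ (E n).powerset with N k F ≤ 1, W (E n) p F ≤ 4 / mean n k p + 4 * δ :=
  cheb _ _ (fun F _ => W_nonneg _ h0.le h1.le F) (sum_W _ _) _ _ _ (mean_eq p)
    (second_le h0 h1 hδ) hm

end H994Cube
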