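import Pool.Agent.H994R2.CubeMoment

/-! From subgraphs of the cube to sets of edges. -/

open scoped Classical

namespace H994Cube

variable {n : ℕ}

/-- spanning subgraph with edge set `F` -/
def span (F : Finset (Sym2 (Fin n → Bool))) : (cube n).Subgraph where
  verts := Set.univ
  Adj x y := (cube n).Adj x y ∧ s(x, y) ∈ F
  adj_sub := fun h => h.1
  edge_vert := fun _ => Set.mem_univ _
  symm := by
    constructor
    intro x y h
    exact ⟨h.1.symm, by rw [Sym2.eq_swap]; exact h.2⟩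

lemma edgeSet_span {F : Finset (Sym2 (Fin n → Bool))} (hF : F ⊆ E n) :
    (span F).edgeSet = (F : Set (Sym2 (Fin n → Bool))) := by
  ext e
  obtain ⟨x, y⟩ := e
  change s(x, y) ∈ (span F).edgeSet ↔ _
  rw [SimpleGraph.Subgraph.mem_edgeSet]
  constructor
  · intro h; exact h.2
  · intro h
    have h' : s(x, y) ∈ F := h
    have := hF h'
    unfold E at this
    rw [SimpleGraph.mem_edgeFinset, SimpleGraph.mem_edgeSet] at this
    exact ⟨this, h'⟩

lemma weight_span {F : Finset (Sym2 (Fin n → Bool))} (hF : F ⊆ E n) (p : ℝ) :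
    weight 1 p (span F) = W (E n) p F := by
  unfold weight W
  rw [edgeSet_span hF, Set.ncard_coe_finset]
  have h1 : (span F).verts = Set.univ := rfl
  have h2 : (span F).verts.ncard = 2 ^ n := by
    rw [h1, Set.ncard_univ, Nat.card_eq_fintype_card]
    simp
  have h3 : {e ∈ (cube n).edgeSet | ∀ v ∈ e, v ∈ (span F).verts}.ncard = (E n).card := by
    have : {e ∈ (cube n).edgeSet | ∀ v ∈ e, v ∈ (span F).verts} = (E n : Set _) := by
      ext e
      unfold E
      rw [h1]
      simp
    rw [this, Set.ncard_coe_finset]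
  rw [h2, h3]
  simp

lemma weight_zero {H : (cube n).Subgraph} (hH : H.verts ≠ Set.univ) (p : ℝ) :
    weight 1 p H = 0 := by
  unfold weight
  have h1 : H.verts.ncard < 2 ^ n := by
    have : (Set.univ : Set (Fin n → Bool)).ncard = 2 ^ n := by
      rw [Set.ncard_univ, Nat.card_eq_fintype_card]
      simp
    rw [← this]
    exact Set.ncard_lt_ncard (Set.ssubset_univ_iff.mpr hH) (Set.toFinite _)
  have h2 : 2 ^ n - H.verts.ncard ≠ 0 := by omega
  rw [sub_self, zero_pow h2]
  simp

lemma prob_one (p : ℝ) (B : (cube n).Subgraph → Prop) :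
    prob n 1 p B = ∑ F ∈ (E n).powerset with B (span F), W (E n) p F := by
  unfold prob
  rw [Finset.sum_filter]
  symm
  have h1 : ∑ H : (cube n).Subgraph, (if B H then weight 1 p H else 0)
      = ∑ H ∈ Finset.univ.filter (fun H : (cube n).Subgraph => H.verts = Set.univ),
        (if B H then weight 1 p H else 0) := by
    symm
    apply Finset.sum_subset (Finset.subset_univ _)
    intro H _ hH
    rw [Finset.mem_filter] at hH
    have : H.verts ≠ Set.univ := fun h => hH ⟨Finset.mem_univ _, h⟩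
    rw [weight_zero this]
    simp
  rw [h1]
  refine Finset.sum_nbij' (fun F => span F) (fun H => H.edgeSet.toFinset) ?_ ?_ ?_ ?_ ?_
  · intro F _
    rw [Finset.mem_filter]
    exact ⟨Finset.mem_univ _, rfl⟩
  · intro H _
    rw [Finset.mem_powerset]
    intro e he
    rw [Set.mem_toFinset] at he
    unfold E
    rw [SimpleGraph.mem_edgeFinset]
    exact H.edgeSet_subset he
  · intro F hF
    rw [Finset.mem_powerset] at hF
    ext e
    rw [Set.mem_toFinset, edgeSet_span hF]
    rfl
  · intro H hH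
    rw [Finset.mem_filter] at hH
    have hv := hH.2
    apply SimpleGraph.Subgraph.ext
    · rw [hv]; rfl
    · ext x y
      change ((cube n).Adj x y ∧ s(x, y) ∈ H.edgeSet.toFinset) ↔ H.Adj x y
      rw [Set.mem_toFinset, SimpleGraph.Subgraph.mem_edgeSet]
      constructor
      · intro h; exact h.2
      · intro h; exact ⟨h.adj_sub, h⟩
  · intro F hF
    rw [Finset.mem_powerset] at hF
    rw [weight_span hF]

lemma reach_closed {V : Type*} {G : SimpleGraph V} {s : Set V}
    (hs : ∀ v w, G.Adj v w → v ∈ s → w ∈ s) {u v : V} (h : G.Reachable u v) (hu : u ∈ s) :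
    v ∈ s := by
  obtain ⟨w⟩ := h
  induction w with
  | nil => exact hu
  | cons hadj _ ih => exact ih (hs _ _ hadj hu)

lemma span_closed {k : ℕ} {t : (Fin n → Bool) × (Fin k ↪ Fin n)}
    {F : Finset (Sym2 (Fin n → Bool))} (h : A t F) :
    ∀ v w : (span F).verts, (span F).coe.Adj v w → v ∈ {x : (span F).verts | x.1 ∈ S t} →
      w ∈ {x : (span F).verts | x.1 ∈ S t} := by
  intro v w hvw hv
  by_contra hw
  have hvw' : (cube n).Adj v.1 w.1 ∧ s(v.1, w.1) ∈ F := hvw
  apply Finset.disjoint_left.mp h.2 _ hvw'.2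
  unfold O E
  rw [Finset.mem_filter, SimpleGraph.mem_edgeFinset, SimpleGraph.mem_edgeSet]
  exact ⟨hvw'.1, v.1, hv, w.1, hw, rfl⟩

/-- component of the start of the path -/
noncomputable def comp {k : ℕ} (F : Finset (Sym2 (Fin n → Bool)))
    (t : (Fin n → Bool) × (Fin k ↪ Fin n)) : (span F).coe.ConnectedComponent :=
  (span F).coe.connectedComponentMk ⟨path t 0, Set.mem_univ _⟩

lemma comp_supp_sub {k : ℕ} {t : (Fin n → Bool) × (Fin k ↪ Fin n)}
    {F : Finset (Sym2 (Fin n → Bool))} (h : A t F) (v : (span F).verts)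
    (hv : v ∈ (comp F t).supp) : v.1 ∈ S t := by
  unfold comp at hv
  rw [SimpleGraph.ConnectedComponent.mem_supp_iff, SimpleGraph.ConnectedComponent.eq] at hv
  have h0 : (⟨path t 0, Set.mem_univ _⟩ : (span F).verts) ∈ {x : (span F).verts | x.1 ∈ S t} := by
    change path t 0 ∈ S t
    rw [mem_S]
    exact ⟨0, by omega, rfl⟩
  exact reach_closed (span_closed h) hv.symm h0

lemma sub_comp_supp {k : ℕ} {t : (Fin n → Bool) × (Fin k ↪ Fin n)} (ht : Valid t)
    {F : Finset (Sym2 (Fin n → Bool))} (h : A t F) {i : ℕ} (hi : i ≤ k) :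
    (⟨path t i, Set.mem_univ _⟩ : (span F).verts) ∈ (comp F t).supp := by
  unfold comp
  rw [SimpleGraph.ConnectedComponent.mem_supp_iff, SimpleGraph.ConnectedComponent.eq]
  induction i with
  | zero => exact SimpleGraph.Reachable.refl _
  | succ i ih =>
    have h1 := ih (by omega)
    refine SimpleGraph.Reachable.trans ?_ h1
    apply SimpleGraph.Adj.reachable
    refine SimpleGraph.Adj.symm ?_
    change (cube n).Adj (path t i) (path t (i + 1)) ∧ s(path t i, path t (i + 1)) ∈ F
    refine ⟨path_adj ht (by omega), h.1 ?_⟩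
    unfold I
    rw [Finset.mem_image]
    exact ⟨i, by rw [Finset.mem_range]; omega, rfl⟩

lemma comp_card {k : ℕ} {t : (Fin n → Bool) × (Fin k ↪ Fin n)} (ht : Valid t)
    {F : Finset (Sym2 (Fin n → Bool))} (h : A t F) : k < (comp F t).supp.ncard := by
  have h1 : ((S t : Finset (Fin n → Bool)) : Set (Fin n → Bool)) ⊆
      Subtype.val '' (comp F t).supp := by
    intro v hv
    rw [Finset.mem_coe, mem_S] at hv
    obtain ⟨i, hi, rfl⟩ := hv
    exact ⟨_, sub_comp_supp ht h hi, rfl⟩
  have h2 := Set.ncard_le_ncard h1 (Set.toFinite _)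
  rw [Set.ncard_coe_finset, card_S ht, Set.ncard_image_of_injective _ Subtype.val_injective] at h2
  omega

lemma twoBig_of_N {k : ℕ} {F : Finset (Sym2 (Fin n → Bool))} (h : 1 < N k F) :
    TwoBig k (span F) := by
  unfold N at h
  rw [Finset.one_lt_card] at h
  obtain ⟨t, ht, t', ht', hne⟩ := h
  rw [Finset.mem_filter, mem_T] at ht ht'
  refine ⟨comp F t, comp F t', ?_, comp_card ht.1 ht.2, comp_card ht'.1 ht'.2⟩
  intro hc
  have h1 := sub_comp_supp ht.1 ht.2 (Nat.zero_le k)
  have h1' := h1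
  rw [hc] at h1'
  have h2 := comp_supp_sub ht.2 _ h1
  have h3 := comp_supp_sub ht'.2 _ h1'
  have h4 : ¬ Disjoint (S t) (S t') := by
    rw [Finset.not_disjoint_iff]
    exact ⟨_, h2, h3⟩
  exact hne (S_inj ht.1 ht'.1 (same_or_disjoint ht.1 ht'.1 F ht.2 ht'.2 h4))

lemma prob_twoBig_ge {k : ℕ} {p δ : ℝ} (h0 : 0 < p) (h1 : p < 1)
    (hδ : ((k + 1 : ℕ) : ℝ) ^ 2 * (n : ℝ) ^ (k + 1) ≤
      δ * (T n k).card * (1 - p) ^ (2 * (k + 1) ^ 2)) (hm : 2 ≤ mean n k p) :
    1 - (4 / mean n k p + 4 * δ) ≤ prob n 1 p (TwoBig k) := by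
  rw [prob_one]
  have e1 := few_le h0 h1 hδ hm
  have e2 := sum_W (E n) p
  have e3 := Finset.sum_filter_add_sum_filter_not (E n).powerset
    (fun F => N k F ≤ 1) (W (E n) p)
  have e4 : ∑ F ∈ (E n).powerset with ¬ (N k F ≤ 1), W (E n) p F
      ≤ ∑ F ∈ (E n).powerset with TwoBig k (span F), W (E n) p F := by
    apply Finset.sum_le_sum_of_subset_of_nonneg
    · intro F hF
      rw [Finset.mem_filter] at hF ⊢
      exact ⟨hF.1, twoBig_of_N (by omega)⟩
    · intro F _ _
      exact W_nonneg _ h0.le h1.le F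
  linarith

lemma prob_le_one {p : ℝ} (h0 : 0 ≤ p) (h1 : p ≤ 1) (B : (cube n).Subgraph → Prop) :
    prob n 1 p B ≤ 1 := by
  rw [prob_one, ← sum_W (E n) p]
  apply Finset.sum_le_sum_of_subset_of_nonneg (Finset.filter_subset _ _)
  intro F _ _
  exact W_nonneg _ h0 h1 F

lemma prob_nonneg {p : ℝ} (h0 : 0 ≤ p) (h1 : p ≤ 1) (B : (cube n).Subgraph → Prop) :
    0 ≤ prob n 1 p B := by
  rw [prob_one]
  apply Finset.sum_nonneg
  intro F _
  exact W_nonneg _ h0 h1 F

lemma prob_not {p : ℝ} (B : (cube n).Subgraph → Prop) :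
    prob n 1 p (fun H => ¬ B H) = 1 - prob n 1 p B := by
  rw [prob_one, prob_one, ← sum_W (E n) p]
  have := Finset.sum_filter_add_sum_filter_not (E n).powerset (fun F => B (span F)) (W (E n) p)
  rw [eq_sub_iff_add_eq']
  convert this using 3
  ext F
  simp only [Finset.mem_filter]

lemma prob_mono {p : ℝ} (h0 : 0 ≤ p) (h1 : p ≤ 1) {B B' : (cube n).Subgraph → Prop}
    (h : ∀ H, B H → B' H) : prob n 1 p B ≤ prob n 1 p B' := by
  rw [prob_one, prob_one]
  apply Finset.sum_le_sum_of_subset_of_nonneg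
  · intro F hF
    rw [Finset.mem_filter] at hF ⊢
    exact ⟨hF.1, h _ hF.2⟩
  · intro F _ _
    exact W_nonneg _ h0 h1 F

lemma not_twoBig_of_assertion {m : ℕ} {ε : ℝ} {H : (cube n).Subgraph} (h : Assertion m ε H) :
    ¬ TwoBig m H := by
  rintro ⟨C, C', hne, h1, h2⟩
  obtain ⟨C₁, _, h3, _⟩ := h
  by_cases hC : C = C₁
  · have : C' ≠ C₁ := fun h => hne (hC.trans h.symm)
    have := h3 C' this
    omega
  · have := h3 C hC
    omega

end H994Cube
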